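import Pool.Agent.N919.BS.Lim

/-!
# The natural density of a criterion among all squarefree integers and among all fundamental
discriminants of both signs
-/

set_option autoImplicit false

open scoped Classical

namespace Pool.Agent.N919.BS

open Finset Filter

theorem ratio {A B : ℕ → ℕ} {c c₁ : ℝ} {X₁ : ℕ} (hc₁ : 0 < c₁)
    (hlow : ∀ X : ℕ, X₁ ≤ X → c₁ * X ≤ (B X : ℝ))
    (h : ∀ ε : ℝ, 0 < ε → ∃ X₀ : ℕ, ∀ X : ℕ, X₀ ≤ X → |(A X : ℝ) - c * (B X : ℝ)| ≤ ε * X) :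
    Tendsto (fun X => (A X : ℝ) / (B X : ℝ)) atTop (nhds c) := by
  rw [Metric.tendsto_atTop]
  intro ε hε
  obtain ⟨X₀, hX₀⟩ := h (ε / 2 * c₁) (by positivity)
  refine ⟨max X₀ (X₁ + 1), fun X hX => ?_⟩
  have h1 := hX₀ X ((le_max_left _ _).trans hX)
  have hX1 : X₁ + 1 ≤ X := (le_max_right _ _).trans hX
  have h2 := hlow X (by omega)
  have hXp : (0 : ℝ) < X := by
    have : 0 < X := by omega
    exact_mod_cast this
  have hB0 : (0 : ℝ) < (B X : ℝ) := by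
    have : 0 < c₁ * X := by positivity
    linarith
  rw [Real.dist_eq, div_sub' hB0.ne', abs_div, abs_of_pos hB0, div_lt_iff₀ hB0, mul_comm (B X : ℝ)]
  have h4 : ε / 2 * c₁ * X ≤ ε / 2 * (B X : ℝ) := by
    calc ε / 2 * c₁ * X = ε / 2 * (c₁ * X) := by ring
      _ ≤ ε / 2 * (B X : ℝ) := by gcongr
  have h5 : ε / 2 * (B X : ℝ) < ε * (B X : ℝ) := by
    apply mul_lt_mul_of_pos_right _ hB0
    linarith
  linarith

/-- the odd squarefree numbers `1` modulo `4` have positive lower density -/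
theorem low1 : ∃ (c : ℝ) (X₀ : ℕ), 0 < c ∧ ∀ X : ℕ, X₀ ≤ X →
    c * X ≤ (NN (fun _ => True) 1 1 1 X : ℝ) := by
  obtain ⟨c, C, hc, hcC, hC, h⟩ := Pool.Agent.N916.ND.QQ_base
  refine ⟨c / 2, ⌈(2 * C / c) ^ 2⌉₊, by positivity, fun X hX => ?_⟩
  have h1 := h 1 X (Or.inl rfl) (Nat.cast_nonneg _)
  rw [Nat.floor_natCast, Pool.Agent.N916.ND.QQ_empty] at h1
  have e : NN (fun _ => True) 1 1 1 X = ((Icc 1 X).filter fun m => m % 4 = 1 ∧ Squarefree m).card := by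
    unfold NN
    congr 1
    ext n
    simp only [mem_filter]
    tauto
  rw [e]
  have h2 : (2 * C / c) ^ 2 ≤ X := (Nat.le_ceil _).trans (by exact_mod_cast hX)
  have h3 : 2 * C / c ≤ Real.sqrt X := Real.le_sqrt_of_sq_le h2
  have h4 : C * Real.sqrt X ≤ c / 2 * X := by
    have h5 : 2 * C ≤ Real.sqrt X * c := by rwa [div_le_iff₀ hc] at h3
    have h6 : Real.sqrt X * Real.sqrt X = X := Real.mul_self_sqrt (Nat.cast_nonneg _)
    have h7 : 0 ≤ Real.sqrt X := Real.sqrt_nonneg _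
    nlinarith
  rw [abs_le] at h1
  linarith [h1.1]

/-- the hypothesis on the criterion `G` in the eight classes -/
def HG (P G : ℤ → Prop) (c : ℝ) : Prop :=
  ∀ (s : ℤ) (k r : ℕ), (s = 1 ∨ s = -1) → (k = 1 ∨ k = 2) → (r = 1 ∨ r = 3) →
    ∀ ε : ℝ, 0 < ε → ∃ Y₀ : ℕ, ∀ Y : ℕ, Y₀ ≤ Y →
      |(NN (fun d => P d ∧ G d) s k r Y : ℝ) - c * NN P s k r Y| ≤ ε * Y

variable {m : ℕ} {P : ℤ → Prop}

/-- one bound for all classes and all ranges `X / e`, `e ≤ 8` -/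
theorem HG.all {G : ℤ → Prop} {c : ℝ} (hG : HG P G c) {ε : ℝ} (hε : 0 < ε) :
    ∃ X₀ : ℕ, ∀ X : ℕ, X₀ ≤ X → ∀ (s : ℤ) (k r e : ℕ), (s = 1 ∨ s = -1) → (k = 1 ∨ k = 2) →
      (r = 1 ∨ r = 3) → 1 ≤ e → e ≤ 8 →
      |(NN (fun d => P d ∧ G d) s k r (X / e) : ℝ) - c * NN P s k r (X / e)| ≤ ε * X := by
  have h1 : ∀ (s : ℤ) (k r : ℕ), ∃ Y₀ : ℕ, (s = 1 ∨ s = -1) → (k = 1 ∨ k = 2) →
      (r = 1 ∨ r = 3) → ∀ Y : ℕ, Y₀ ≤ Y →
      |(NN (fun d => P d ∧ G d) s k r Y : ℝ) - c * NN P s k r Y| ≤ ε * Y := by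
    intro s k r
    by_cases h : (s = 1 ∨ s = -1) ∧ (k = 1 ∨ k = 2) ∧ (r = 1 ∨ r = 3)
    · obtain ⟨Y₀, hY⟩ := hG s k r h.1 h.2.1 h.2.2 ε hε
      exact ⟨Y₀, fun _ _ _ => hY⟩
    · exact ⟨0, fun a b d => absurd ⟨a, b, d⟩ h⟩
  choose Y hY using h1
  refine ⟨8 * (Y 1 1 1 + Y 1 1 3 + Y 1 2 1 + Y 1 2 3 + (Y (-1) 1 1 + Y (-1) 1 3 + Y (-1) 2 1 +
    Y (-1) 2 3)), fun X hX s k r e hs hk hr he he' => ?_⟩
  have h2 : Y s k r ≤ X / e := by
    rw [Nat.le_div_iff_mul_le (by omega)]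
    have h3 : Y s k r * e ≤ Y s k r * 8 := Nat.mul_le_mul_left _ he'
    rcases hs with rfl | rfl <;> rcases hk with rfl | rfl <;> rcases hr with rfl | rfl <;> omega
  refine (hY s k r hs hk hr _ h2).trans ?_
  refine mul_le_mul_of_nonneg_left ?_ hε.le
  exact_mod_cast Nat.div_le_self X e

/-- **density among the squarefree integers** -/
theorem t_NS (h : Root m P) {G : ℤ → Prop} {c : ℝ} (hG : HG P G c) :
    Tendsto (fun X : ℕ => (NS (fun d => P d ∧ G d) X : ℝ) / (NS (fun _ => True) X : ℝ)) atTop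
      (nhds (c / 2)) := by
  obtain ⟨c₁, X₁, hc₁, hlow⟩ := low1
  refine ratio hc₁ (X₁ := X₁) (fun X hX => (hlow X hX).trans ?_) ?_
  · rw [NS_eq]
    exact_mod_cast (by omega)
  · intro ε hε
    obtain ⟨X₀, hX₀⟩ := hG.all (ε := ε / 8) (by positivity)
    refine ⟨X₀, fun X hX => ?_⟩
    have a := hX₀ X hX
    have e1 := a 1 1 1 1 (Or.inl rfl) (Or.inl rfl) (Or.inl rfl) le_rfl (by norm_num)
    have e2 := a 1 1 3 1 (Or.inl rfl) (Or.inl rfl) (Or.inr rfl) le_rfl (by norm_num)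
    have e3 := a 1 2 1 2 (Or.inl rfl) (Or.inr rfl) (Or.inl rfl) (by norm_num) (by norm_num)
    have e4 := a 1 2 3 2 (Or.inl rfl) (Or.inr rfl) (Or.inr rfl) (by norm_num) (by norm_num)
    have e5 := a (-1) 1 1 1 (Or.inr rfl) (Or.inl rfl) (Or.inl rfl) le_rfl (by norm_num)
    have e6 := a (-1) 1 3 1 (Or.inr rfl) (Or.inl rfl) (Or.inr rfl) le_rfl (by norm_num)
    have e7 := a (-1) 2 1 2 (Or.inr rfl) (Or.inr rfl) (Or.inl rfl) (by norm_num) (by norm_num)
    have e8 := a (-1) 2 3 2 (Or.inr rfl) (Or.inr rfl) (Or.inr rfl) (by norm_num) (by norm_num)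
    rw [Nat.div_one] at e1 e2 e5 e6
    have b := NS_half h X
    have b' := congrArg (Nat.cast : ℕ → ℝ) b
    push_cast at b'
    have e9 : c / 2 * (NS (fun _ => True) X : ℝ) = c * (NS P X : ℝ) := by rw [← b']; ring
    rw [e9, NS_eq, NS_eq]
    push_cast
    rw [abs_le] at e1 e2 e3 e4 e5 e6 e7 e8 ⊢
    constructor
    · linarith [e1.1, e2.1, e3.1, e4.1, e5.1, e6.1, e7.1, e8.1]
    · linarith [e1.2, e2.2, e3.2, e4.2, e5.2, e6.2, e7.2, e8.2]

/-- **density among the fundamental discriminants** -/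
theorem t_NF (h : Root m P) {G : ℤ → Prop} {c : ℝ} (hc : 0 ≤ c) (hG : HG P G c) :
    Tendsto (fun X : ℕ => (NF (fun d => P d ∧ G d) X : ℝ) / (NF (fun _ => True) X : ℝ)) atTop
      (nhds (c / 2)) := by
  obtain ⟨c₁, X₁, hc₁, hlow⟩ := low1
  refine ratio hc₁ (X₁ := X₁) (fun X hX => (hlow X hX).trans ?_) ?_
  · rw [NF_eq]
    exact_mod_cast (by omega)
  · intro ε hε
    obtain ⟨X₀, hX₀⟩ := hG.all (ε := ε / 16) (by positivity)
    set B : ℝ := c / 2 * (16 * m + 16) with hB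
    have hB0 : 0 ≤ B := by positivity
    refine ⟨X₀ + ⌈(2 * B / ε) ^ 2⌉₊, fun X hX => ?_⟩
    have a := hX₀ X (by omega)
    have e1 := a 1 1 1 1 (Or.inl rfl) (Or.inl rfl) (Or.inl rfl) le_rfl (by norm_num)
    have e2 := a 1 1 3 4 (Or.inl rfl) (Or.inl rfl) (Or.inr rfl) (by norm_num) (by norm_num)
    have e3 := a 1 2 1 8 (Or.inl rfl) (Or.inr rfl) (Or.inl rfl) (by norm_num) (by norm_num)
    have e4 := a 1 2 3 8 (Or.inl rfl) (Or.inr rfl) (Or.inr rfl) (by norm_num) (by norm_num)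
    have e5 := a (-1) 1 1 4 (Or.inr rfl) (Or.inl rfl) (Or.inl rfl) (by norm_num) (by norm_num)
    have e6 := a (-1) 1 3 1 (Or.inr rfl) (Or.inl rfl) (Or.inr rfl) le_rfl (by norm_num)
    have e7 := a (-1) 2 1 8 (Or.inr rfl) (Or.inr rfl) (Or.inl rfl) (by norm_num) (by norm_num)
    have e8 := a (-1) 2 3 8 (Or.inr rfl) (Or.inr rfl) (Or.inr rfl) (by norm_num) (by norm_num)
    rw [Nat.div_one] at e1 e6
    have h1 : |(NF (fun d => P d ∧ G d) X : ℝ) - c * (NF P X : ℝ)| ≤ ε / 2 * X := by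
      rw [NF_eq, NF_eq]
      push_cast
      rw [abs_le] at e1 e2 e3 e4 e5 e6 e7 e8 ⊢
      constructor
      · linarith [e1.1, e2.1, e3.1, e4.1, e5.1, e6.1, e7.1, e8.1]
      · linarith [e1.2, e2.2, e3.2, e4.2, e5.2, e6.2, e7.2, e8.2]
    have h2 := NF_half h X
    have h3 : |c * (NF P X : ℝ) - c / 2 * (NF (fun _ => True) X : ℝ)| ≤ B * Real.sqrt X := by
      have e : c * (NF P X : ℝ) - c / 2 * (NF (fun _ => True) X : ℝ) =
          c / 2 * (2 * (NF P X : ℝ) - NF (fun _ => True) X) := by ring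
      rw [e, abs_mul, abs_of_nonneg (by positivity : 0 ≤ c / 2), hB, mul_assoc]
      exact mul_le_mul_of_nonneg_left h2 (by positivity)
    have h4 : B * Real.sqrt X ≤ ε / 2 * X := by
      have h5 : (2 * B / ε) ^ 2 ≤ X := (Nat.le_ceil _).trans (by exact_mod_cast (by omega))
      have h6 : 2 * B / ε ≤ Real.sqrt X := Real.le_sqrt_of_sq_le h5
      have h7 : 2 * B ≤ Real.sqrt X * ε := by rwa [div_le_iff₀ hε] at h6
      have h8 : Real.sqrt X * Real.sqrt X = X := Real.mul_self_sqrt (Nat.cast_nonneg _)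
      have h9 : 0 ≤ Real.sqrt X := Real.sqrt_nonneg _
      nlinarith
    have h5 := abs_sub_le (NF (fun d => P d ∧ G d) X : ℝ) (c * (NF P X : ℝ))
      (c / 2 * (NF (fun _ => True) X : ℝ))
    linarith

/-! ### level 17 -/

/-- the root number of the twist by the squarefree integer `d` is `+ 1` -/
def Rt17 (d : ℤ) : Prop := (0 < d ∧ jacobiSym d 17 = 1) ∨ (d < 0 ∧ jacobiSym d 17 ≠ 1)

theorem js17 {d e : ℤ} (h : (17 : ℤ) ∣ d + e) : jacobiSym d 17 = jacobiSym e 17 := by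
  have h1 : jacobiSym d 17 = jacobiSym (-e) 17 := by
    apply jacobiSym.mod_left'
    push_cast
    omega
  rw [h1, jacobiSym.neg e (by decide : Odd 17)]
  have h2 : ZMod.χ₄ (17 : ℕ) = 1 := by decide
  rw [h2, one_mul]

theorem root17 : Root 17 Rt17 where
  pos := by norm_num
  odd := by norm_num
  sym := by
    intro s hs M N hM hN h
    have h1 : jacobiSym (s * M) 17 = jacobiSym (s * N) 17 := by
      apply js17
      rw [← mul_add]
      exact dvd_mul_of_dvd_right (by exact_mod_cast h) _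
    unfold Rt17
    rw [h1]
    rcases hs with rfl | rfl
    · have e1 : (0 : ℤ) < 1 * M := by omega
      have e2 : (0 : ℤ) < 1 * N := by omega
      have e3 : ¬ (1 : ℤ) * M < 0 := by omega
      have e4 : ¬ (1 : ℤ) * N < 0 := by omega
      simp only [e1, e2, e3, e4]
    · have e1 : ¬ (0 : ℤ) < -1 * M := by omega
      have e2 : ¬ (0 : ℤ) < -1 * N := by omega
      have e3 : (-1 : ℤ) * M < 0 := by omega
      have e4 : (-1 : ℤ) * N < 0 := by omega
      simp only [e1, e2, e3, e4]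
  one := by
    intro d hd
    unfold Rt17
    have h1 : jacobiSym (-d) 17 = jacobiSym d 17 := js17 (by rw [neg_add_cancel]; exact dvd_zero _)
    rw [h1]
    rcases lt_or_gt_of_ne hd with h | h
    · have e1 : ¬ 0 < d := by omega
      have e2 : 0 < -d := by omega
      have e3 : ¬ -d < 0 := by omega
      simp only [e1, h, e2, e3]
      tauto
    · have e1 : ¬ d < 0 := by omega
      have e2 : ¬ 0 < -d := by omega
      have e3 : -d < 0 := by omega
      simp only [e1, h, e2, e3]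
      tauto

end Pool.Agent.N919.BS
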