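import Pool.Agent.N919.BS.Eqd

/-!
# Densities of sets of squarefree integers and of fundamental discriminants, both signs

`d = s k M`, `s = ± 1`, `k = 1, 2`, `M` odd, `M = c mod 4`.
-/

set_option autoImplicit false

open scoped Classical

namespace Pool.Agent.N919.BS

open Finset Filter

/-- the numbers `M ≤ Y` of the type `(s, k, c)` for which `s k M` has the property `P` -/
noncomputable def NN (P : ℤ → Prop) (s : ℤ) (k c Y : ℕ) : ℕ :=
  ((Icc 1 Y).filter fun M => Squarefree M ∧ M % 4 = c ∧ P (s * (k * M : ℕ))).card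

/-- the squarefree integers `d`, `|d| ≤ X`, with the property `P` -/
noncomputable def NS (P : ℤ → Prop) (X : ℕ) : ℕ :=
  ((Icc (-(X : ℤ)) X).filter fun d => Squarefree d ∧ P d).card

/-- fundamental discriminants (`1` included) -/
def Fund (D : ℤ) : Prop := (Squarefree D ∧ D % 4 = 1) ∨
  ∃ m : ℤ, D = 4 * m ∧ Squarefree m ∧ (m % 4 = 2 ∨ m % 4 = 3)

/-- the squarefree integer `d` with `ℚ(√d) = ℚ(√D)` -/
def core (D : ℤ) : ℤ := if D % 2 = 1 then D else D / 4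

/-- the fundamental discriminants `D`, `|D| ≤ X`, for which `core D` has the property `P` -/
noncomputable def NF (P : ℤ → Prop) (X : ℕ) : ℕ :=
  ((Icc (-(X : ℤ)) X).filter fun D => Fund D ∧ P (core D)).card

theorem sq_cast (n : ℕ) : Squarefree (n : ℤ) ↔ Squarefree n := Int.squarefree_natCast

theorem sq_neg (d : ℤ) : Squarefree (-d) ↔ Squarefree d := by
  unfold Squarefree
  simp only [dvd_neg]

theorem sq_two {n : ℕ} (h : n % 2 = 1) : Squarefree (2 * n) ↔ Squarefree n := by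
  rw [Nat.squarefree_mul (Nat.coprime_two_left.2 (Nat.odd_iff.2 h))]
  exact ⟨fun h => h.2, fun h => ⟨Nat.squarefree_two, h⟩⟩

/-- the type of a squarefree natural number -/
theorem sq_type {n : ℕ} (h : Squarefree n) : n % 2 = 1 ∨ ∃ M, n = 2 * M ∧ M % 2 = 1 := by
  rcases Nat.even_or_odd' n with ⟨m, h1 | h1⟩
  · right
    refine ⟨m, h1, ?_⟩
    by_contra h2
    obtain ⟨r, hr⟩ : ∃ r, m = 2 * r := ⟨m / 2, by omega⟩
    have h3 := h 2 ⟨r, by rw [h1, hr]; ring⟩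
    rw [Nat.isUnit_iff] at h3
    omega
  · left
    omega

/-- the integers `s k M`, `M ≤ Y`, `e M' = ` the ordering -/
noncomputable def IM (P : ℤ → Prop) (s : ℤ) (k c Y : ℕ) (e : ℤ) : Finset ℤ :=
  ((Icc 1 Y).filter fun M => Squarefree M ∧ M % 4 = c ∧ P (s * (k * M : ℕ))).image
    fun M : ℕ => e * (M : ℤ)

theorem card_IM (P : ℤ → Prop) (s : ℤ) (k c Y : ℕ) {e : ℤ} (he : e ≠ 0) :
    (IM P s k c Y e).card = NN P s k c Y := by
  unfold IM NN
  rw [card_image_of_injective]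
  intro a b h
  have h1 := mul_left_cancel₀ he (show e * (a : ℤ) = e * (b : ℤ) from h)
  exact_mod_cast h1

theorem mem_IM {P : ℤ → Prop} {s : ℤ} {k c Y : ℕ} {e : ℤ} {d : ℤ} : d ∈ IM P s k c Y e ↔
    ∃ M : ℕ, (1 ≤ M ∧ M ≤ Y) ∧ (Squarefree M ∧ M % 4 = c ∧ P (s * (k * M : ℕ))) ∧ e * M = d := by
  unfold IM
  rw [mem_image]
  constructor
  · rintro ⟨M, h1, h2⟩
    rw [mem_filter, mem_Icc] at h1
    exact ⟨M, h1.1, h1.2, h2⟩
  · rintro ⟨M, h1, h2, h3⟩
    exact ⟨M, by rw [mem_filter, mem_Icc]; exact ⟨h1, h2⟩, h3⟩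

theorem card_eight (A : Finset ℤ) (B : Fin 8 → Finset ℤ) (hA : ∀ d, d ∈ A ↔ ∃ i, d ∈ B i)
    (f : ℤ → Fin 8) (hf : ∀ i, ∀ d ∈ B i, f d = i) : A.card = ∑ i, (B i).card := by
  have h : A = univ.biUnion B := by
    ext d
    rw [hA, mem_biUnion]
    simp
  rw [h, card_biUnion]
  intro i _ j _ hij
  refine disjoint_left.2 ?_
  intro d h1 h2
  exact hij ((hf i d h1).symm.trans (hf j d h2))

/-- the type of an integer -/
noncomputable def tyS (d : ℤ) : Fin 8 :=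
  if 0 < d then (if d % 4 = 1 then 0 else if d % 4 = 3 then 1 else if d % 8 = 2 then 2 else 3)
  else (if d % 4 = 3 then 4 else if d % 4 = 1 then 5 else if d % 8 = 6 then 6 else 7)

theorem NS_eq (P : ℤ → Prop) (X : ℕ) : NS P X =
    NN P 1 1 1 X + NN P 1 1 3 X + NN P 1 2 1 (X / 2) + NN P 1 2 3 (X / 2) +
    (NN P (-1) 1 1 X + NN P (-1) 1 3 X + NN P (-1) 2 1 (X / 2) + NN P (-1) 2 3 (X / 2)) := by
  have h := card_eight ((Icc (-(X : ℤ)) X).filter fun d => Squarefree d ∧ P d)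
    ![IM P 1 1 1 X 1, IM P 1 1 3 X 1, IM P 1 2 1 (X / 2) 2, IM P 1 2 3 (X / 2) 2,
      IM P (-1) 1 1 X (-1), IM P (-1) 1 3 X (-1), IM P (-1) 2 1 (X / 2) (-2),
      IM P (-1) 2 3 (X / 2) (-2)] ?_ tyS ?_
  · unfold NS
    rw [h, Fin.sum_univ_eight]
    simp only [Fin.isValue, Matrix.cons_val]
    rw [card_IM _ _ _ _ _ (by norm_num), card_IM _ _ _ _ _ (by norm_num),
      card_IM _ _ _ _ _ (by norm_num), card_IM _ _ _ _ _ (by norm_num),
      card_IM _ _ _ _ _ (by norm_num), card_IM _ _ _ _ _ (by norm_num),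
      card_IM _ _ _ _ _ (by norm_num), card_IM _ _ _ _ _ (by norm_num)]
    ring
  · intro d
    rw [mem_filter, mem_Icc]
    constructor
    · rintro ⟨⟨h1, h2⟩, h3, h4⟩
      obtain ⟨n, hn | hn⟩ := Int.eq_nat_or_neg d
      · subst hn
        rw [sq_cast] at h3
        have hn0 : 0 < n := Nat.pos_of_ne_zero h3.ne_zero
        have hnX : n ≤ X := by exact_mod_cast h2
        rcases sq_type h3 with h5 | ⟨M, rfl, h5⟩
        · rcases (show n % 4 = 1 ∨ n % 4 = 3 by omega) with h6 | h6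
          · exact ⟨0, mem_IM.2 ⟨n, ⟨hn0, hnX⟩, ⟨h3, h6, by simpa using h4⟩, by simp⟩⟩
          · exact ⟨1, mem_IM.2 ⟨n, ⟨hn0, hnX⟩, ⟨h3, h6, by simpa using h4⟩, by simp⟩⟩
        · rw [sq_two h5] at h3
          rcases (show M % 4 = 1 ∨ M % 4 = 3 by omega) with h6 | h6
          · exact ⟨2, mem_IM.2 ⟨M, ⟨by omega, by omega⟩, ⟨h3, h6, by simpa using h4⟩, by simp⟩⟩
          · exact ⟨3, mem_IM.2 ⟨M, ⟨by omega, by omega⟩, ⟨h3, h6, by simpa using h4⟩, by simp⟩⟩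
      · subst hn
        rw [sq_neg, sq_cast] at h3
        have hn0 : 0 < n := Nat.pos_of_ne_zero h3.ne_zero
        have hnX : n ≤ X := by omega
        rcases sq_type h3 with h5 | ⟨M, rfl, h5⟩
        · rcases (show n % 4 = 1 ∨ n % 4 = 3 by omega) with h6 | h6
          · exact ⟨4, mem_IM.2 ⟨n, ⟨hn0, hnX⟩, ⟨h3, h6, by simpa using h4⟩, by simp⟩⟩
          · exact ⟨5, mem_IM.2 ⟨n, ⟨hn0, hnX⟩, ⟨h3, h6, by simpa using h4⟩, by simp⟩⟩
        · rw [sq_two h5] at h3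
          rcases (show M % 4 = 1 ∨ M % 4 = 3 by omega) with h6 | h6
          · exact ⟨6, mem_IM.2 ⟨M, ⟨by omega, by omega⟩, ⟨h3, h6, by simpa using h4⟩, by simp⟩⟩
          · exact ⟨7, mem_IM.2 ⟨M, ⟨by omega, by omega⟩, ⟨h3, h6, by simpa using h4⟩, by simp⟩⟩
    · rintro ⟨i, hi⟩
      fin_cases i
      · obtain ⟨M, h1, ⟨h2, h3, h4⟩, rfl⟩ := mem_IM.1 hi
        refine ⟨⟨by omega, by omega⟩, ?_, by simpa using h4⟩
        rw [one_mul, sq_cast]
        exact h2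
      · obtain ⟨M, h1, ⟨h2, h3, h4⟩, rfl⟩ := mem_IM.1 hi
        refine ⟨⟨by omega, by omega⟩, ?_, by simpa using h4⟩
        rw [one_mul, sq_cast]
        exact h2
      · obtain ⟨M, h1, ⟨h2, h3, h4⟩, rfl⟩ := mem_IM.1 hi
        refine ⟨⟨by omega, by omega⟩, ?_, by simpa using h4⟩
        have : Squarefree ((2 * M : ℕ) : ℤ) := (sq_cast _).2 ((sq_two (by omega)).2 h2)
        simpa using this
      · obtain ⟨M, h1, ⟨h2, h3, h4⟩, rfl⟩ := mem_IM.1 hi
        refine ⟨⟨by omega, by omega⟩, ?_, by simpa using h4⟩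
        have : Squarefree ((2 * M : ℕ) : ℤ) := (sq_cast _).2 ((sq_two (by omega)).2 h2)
        simpa using this
      · obtain ⟨M, h1, ⟨h2, h3, h4⟩, rfl⟩ := mem_IM.1 hi
        refine ⟨⟨by omega, by omega⟩, ?_, by simpa using h4⟩
        rw [neg_one_mul, sq_neg, sq_cast]
        exact h2
      · obtain ⟨M, h1, ⟨h2, h3, h4⟩, rfl⟩ := mem_IM.1 hi
        refine ⟨⟨by omega, by omega⟩, ?_, by simpa using h4⟩
        rw [neg_one_mul, sq_neg, sq_cast]
        exact h2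
      · obtain ⟨M, h1, ⟨h2, h3, h4⟩, rfl⟩ := mem_IM.1 hi
        refine ⟨⟨by omega, by omega⟩, ?_, by simpa using h4⟩
        have : Squarefree (-((2 * M : ℕ) : ℤ)) :=
          (sq_neg _).2 ((sq_cast _).2 ((sq_two (by omega)).2 h2))
        simpa using this
      · obtain ⟨M, h1, ⟨h2, h3, h4⟩, rfl⟩ := mem_IM.1 hi
        refine ⟨⟨by omega, by omega⟩, ?_, by simpa using h4⟩
        have : Squarefree (-((2 * M : ℕ) : ℤ)) :=
          (sq_neg _).2 ((sq_cast _).2 ((sq_two (by omega)).2 h2))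
        simpa using this
  · intro i d hi
    unfold tyS
    fin_cases i <;> obtain ⟨M, h1, ⟨h2, h3, h4⟩, rfl⟩ := mem_IM.1 hi <;>
    · split_ifs <;> first | rfl | (exfalso; omega)

end Pool.Agent.N919.BS
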