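import Pool.Agent.N916.ND.Sqf

/-!
# Equidistribution of the squarefree numbers in residue classes with the same greatest common
divisor with the modulus
-/

set_option autoImplicit false

open scoped Classical

namespace Pool.Agent.N919.BS

open Finset
open scoped ArithmeticFunction.Moebius

/-- the squarefree numbers up to `X`, congruent to `a` modulo `M` -/
noncomputable def UU (M a X : ℕ) : Finset ℕ := (Icc 1 X).filter fun n => Squarefree n ∧ n % M = a

/-- the numbers of a residue class in an interval -/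
theorem card_class (L r X : ℕ) (hL : 0 < L) :
    X / L ≤ ((Icc 1 X).filter fun n => n % L = r % L).card ∧
      ((Icc 1 X).filter fun n => n % L = r % L).card ≤ X / L + 1 := by
  have h := Nat.count_modEq_card (X + 1) hL r
  rw [Nat.count_eq_card_filter_range] at h
  have h0 : ((range (X + 1)).filter fun n => n ≡ r [MOD L]).card =
      ((Icc 1 X).filter fun n => n % L = r % L).card + if r % L = 0 then 1 else 0 := by
    have e : (range (X + 1)).filter (fun n => n ≡ r [MOD L]) =
        ((Icc 1 X).filter fun n => n % L = r % L) ∪ (if r % L = 0 then {0} else ∅) := by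
      ext n
      rw [mem_filter, mem_range, mem_union, mem_filter, mem_Icc]
      unfold Nat.ModEq
      constructor
      · rintro ⟨h1, h2⟩
        rcases Nat.eq_zero_or_pos n with h3 | h3
        · subst h3
          right
          rw [Nat.zero_mod] at h2
          rw [if_pos h2.symm, mem_singleton]
        · exact Or.inl ⟨⟨h3, by omega⟩, h2⟩
      · rintro (⟨⟨h1, h2⟩, h3⟩ | h3)
        · exact ⟨by omega, h3⟩
        · split_ifs at h3 with h4
          · rw [mem_singleton] at h3
            subst h3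
            exact ⟨by omega, by rw [Nat.zero_mod, h4]⟩
          · exact absurd h3 (notMem_empty _)
    rw [e, card_union_of_disjoint]
    · congr 1
      split_ifs <;> simp
    · rw [disjoint_left]
      intro n h1 h2
      rw [mem_filter, mem_Icc] at h1
      split_ifs at h2
      · rw [mem_singleton] at h2
        omega
      · exact absurd h2 (notMem_empty _)
  rw [h0] at h
  have h1 := Nat.div_add_mod (X + 1) L
  have h2 := Nat.div_add_mod X L
  have h3 := Nat.mod_lt (X + 1) hL
  have h4 := Nat.mod_lt X hL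
  have h5 : (X + 1) / L = if (X + 1) % L = 0 then X / L + 1 else X / L := by
    rw [Nat.succ_div]
    by_cases h6 : L ∣ X + 1
    · rw [if_pos h6, if_pos (Nat.mod_eq_zero_of_dvd h6)]
    · rw [if_neg h6, if_neg (fun h7 => h6 (Nat.dvd_of_mod_eq_zero h7)), Nat.add_zero]
  rw [h5] at h
  split_ifs at h <;> omega

/-- the numbers of the class divisible by `q` -/
theorem card_sq (M q a b X : ℕ) (hM : 0 < M) (hq : 0 < q) (hab : a.gcd M = b.gcd M) (ha : a < M)
    (hb : b < M) :
    |(((Icc 1 X).filter fun n => n % M = a ∧ q ∣ n).card : ℤ) -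
      (((Icc 1 X).filter fun n => n % M = b ∧ q ∣ n).card : ℤ)| ≤ 1 := by
  have key : ∀ c : ℕ, c < M → (¬ M.gcd q ∣ c →
      ((Icc 1 X).filter fun n => n % M = c ∧ q ∣ n).card = 0) ∧ (M.gcd q ∣ c →
      X / (M.lcm q) ≤ ((Icc 1 X).filter fun n => n % M = c ∧ q ∣ n).card ∧
      ((Icc 1 X).filter fun n => n % M = c ∧ q ∣ n).card ≤ X / (M.lcm q) + 1) := by
    intro c hc
    constructor
    · intro h
      rw [card_eq_zero, filter_eq_empty_iff]
      rintro n - ⟨h1, h2⟩
      refine h ?_
      have h3 : M.gcd q ∣ n := (Nat.gcd_dvd_right M q).trans h2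
      rw [← h1]
      exact (Nat.dvd_mod_iff (Nat.gcd_dvd_left M q)).2 h3
    · intro h
      obtain ⟨x, hx1, hx2⟩ := Nat.chineseRemainder' (n := M) (m := q) (a := c) (b := 0)
        ((Nat.modEq_zero_iff_dvd.2 h))
      have e : ((Icc 1 X).filter fun n => n % M = c ∧ q ∣ n) =
          (Icc 1 X).filter fun n => n % (M.lcm q) = x % (M.lcm q) := by
        refine filter_congr fun n _ => ?_
        constructor
        · rintro ⟨h1, h2⟩
          refine Nat.mod_lcm ?_ ?_
          · refine Nat.ModEq.trans ?_ hx1.symm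
            show n % M = c % M
            rw [h1, Nat.mod_eq_of_lt hc]
          · exact ((Nat.modEq_zero_iff_dvd.2 h2)).trans hx2.symm
        · intro h1
          have h1' : n ≡ x [MOD M.lcm q] := h1
          have h2 := h1'.of_dvd (Nat.dvd_lcm_left M q)
          have h3 := h1'.of_dvd (Nat.dvd_lcm_right M q)
          refine ⟨?_, Nat.modEq_zero_iff_dvd.1 (h3.trans hx2)⟩
          have h4 := h2.trans hx1
          unfold Nat.ModEq at h4
          rw [h4, Nat.mod_eq_of_lt hc]
      rw [e]
      exact card_class _ _ _ (Nat.lcm_pos hM hq)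
  have hdd : M.gcd q ∣ a ↔ M.gcd q ∣ b := by
    have h1 : ∀ c : ℕ, M.gcd q ∣ c ↔ M.gcd q ∣ c.gcd M := fun c =>
      ⟨fun h => Nat.dvd_gcd h (Nat.gcd_dvd_left M q), fun h => h.trans (Nat.gcd_dvd_left c M)⟩
    rw [h1 a, h1 b, hab]
  by_cases h : M.gcd q ∣ a
  · obtain ⟨h1, h2⟩ := (key a ha).2 h
    obtain ⟨h3, h4⟩ := (key b hb).2 (hdd.1 h)
    rw [abs_le]
    constructor <;> omega
  · rw [(key a ha).1 h, (key b hb).1 (fun h' => h (hdd.2 h'))]
    simp

/-- the Moebius formula for the class -/
theorem card_UU (M a X : ℕ) : ((UU M a X).card : ℤ) =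
    ∑ s ∈ Icc 1 (Nat.sqrt X), μ s * (((Icc 1 X).filter fun n => n % M = a ∧ s ^ 2 ∣ n).card : ℤ) := by
  have h1 : ((UU M a X).card : ℤ) = ∑ n ∈ (Icc 1 X).filter (fun n => n % M = a),
      if Squarefree n then (1 : ℤ) else 0 := by
    have e : UU M a X = ((Icc 1 X).filter fun n => n % M = a).filter Squarefree := by
      ext n
      simp only [UU, mem_filter]
      tauto
    rw [e, ← sum_filter, sum_const, nsmul_eq_mul, mul_one]
  rw [h1]
  have h2 : ∀ n ∈ (Icc 1 X).filter (fun n => n % M = a),
      (if Squarefree n then (1 : ℤ) else 0) =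
        ∑ s ∈ Icc 1 (Nat.sqrt X), if s ^ 2 ∣ n then μ s else 0 := by
    intro n hn
    rw [mem_filter, mem_Icc] at hn
    have h3 : n < (Nat.sqrt X + 1) ^ 2 := by
      have := Nat.lt_succ_sqrt' X
      rw [Nat.succ_eq_add_one] at this
      omega
    rw [← Pool.Agent.N916.ND.ind_sqf (by omega) h3, sum_filter]
  rw [sum_congr rfl h2, sum_comm]
  refine sum_congr rfl fun s _ => ?_
  have e : ((Icc 1 X).filter fun n => n % M = a ∧ s ^ 2 ∣ n) =
      ((Icc 1 X).filter fun n => n % M = a).filter fun n => s ^ 2 ∣ n := by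
    ext n
    simp only [mem_filter]
    tauto
  rw [e, ← sum_filter, sum_const, nsmul_eq_mul, mul_comm]

/-- **equidistribution** -/
theorem eqd (M a b X : ℕ) (hM : 0 < M) (ha : a < M) (hb : b < M) (hab : a.gcd M = b.gcd M) :
    |((UU M a X).card : ℝ) - ((UU M b X).card : ℝ)| ≤ Real.sqrt X := by
  have h : |((UU M a X).card : ℤ) - ((UU M b X).card : ℤ)| ≤ (Nat.sqrt X : ℤ) := by
    rw [card_UU, card_UU, ← sum_sub_distrib]
    refine (abs_sum_le_sum_abs _ _).trans ?_
    have h1 : ∀ s ∈ Icc 1 (Nat.sqrt X),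
        |μ s * (((Icc 1 X).filter fun n => n % M = a ∧ s ^ 2 ∣ n).card : ℤ) -
          μ s * (((Icc 1 X).filter fun n => n % M = b ∧ s ^ 2 ∣ n).card : ℤ)| ≤ 1 := by
      intro s hs
      rw [mem_Icc] at hs
      rw [← mul_sub, abs_mul]
      have h2 := card_sq M (s ^ 2) a b X hM (pow_pos (by omega) 2) hab ha hb
      have h3 : |μ s| ≤ 1 := ArithmeticFunction.abs_moebius_le_one
      calc |μ s| * _ ≤ 1 * 1 := mul_le_mul h3 h2 (abs_nonneg _) (by norm_num)
        _ = 1 := by norm_num
    refine (sum_le_sum h1).trans ?_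
    rw [sum_const, Nat.card_Icc, nsmul_eq_mul, mul_one, Nat.add_sub_cancel]
  have h' : |((UU M a X).card : ℝ) - ((UU M b X).card : ℝ)| ≤ (Nat.sqrt X : ℝ) := by
    exact_mod_cast h
  exact h'.trans Real.nat_sqrt_le_real_sqrt

end Pool.Agent.N919.BS
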