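import Pool.Agent.N919.BS.SumF

/-!
# The limit theorems for squarefree integers and fundamental discriminants of both signs
-/

set_option autoImplicit false

open scoped Classical

namespace Pool.Agent.N919.BS

open Finset Filter

/-- the condition on the sign and on the residue modulo `m` (root number `+ 1`) -/
structure Root (m : ℕ) (P : ℤ → Prop) : Prop where
  pos : 0 < m
  odd : m % 2 = 1
  sym : ∀ s : ℤ, (s = 1 ∨ s = -1) → ∀ M N : ℕ, 0 < M → 0 < N → m ∣ M + N →
    (P (s * M) ↔ P (s * N))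
  one : ∀ d : ℤ, d ≠ 0 → (P d ↔ ¬ P (-d))

variable {m : ℕ} {P : ℤ → Prop}

theorem Root.mod (h : Root m P) {s : ℤ} (hs : s = 1 ∨ s = -1) {M N : ℕ} (hM : 0 < M) (hN : 0 < N)
    (hMN : M % m = N % m) : P (s * M) ↔ P (s * N) := by
  have hm := h.pos
  obtain ⟨L, hL, hLM⟩ : ∃ L : ℕ, 0 < L ∧ m ∣ M + L := by
    refine ⟨m * (M + 1) - M, ?_, ?_⟩
    · have : M + 1 ≤ m * (M + 1) := Nat.le_mul_of_pos_left _ hm
      omega
    · have : M + 1 ≤ m * (M + 1) := Nat.le_mul_of_pos_left _ hm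
      exact ⟨M + 1, by omega⟩
  rw [h.sym s hs M L hM hL hLM]
  refine (h.sym s hs N L hN hL ?_).symm
  rw [Nat.dvd_iff_mod_eq_zero, Nat.add_mod, ← hMN, ← Nat.add_mod, ← Nat.dvd_iff_mod_eq_zero]
  exact hLM

/-- the residues -/
noncomputable def Rs (m : ℕ) (P : ℤ → Prop) (s : ℤ) (c : ℕ) : Finset ℕ :=
  (range (4 * m)).filter fun a => a % 4 = c ∧ P (s * a)

theorem NN_res (h : Root m P) {s : ℤ} (hs : s = 1 ∨ s = -1) {c : ℕ} (hc : c = 1 ∨ c = 3) (Y : ℕ) :
    (NN P s 1 c Y : ℝ) = ∑ a ∈ Rs m P s c, ((UU (4 * m) a Y).card : ℝ) := by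
  have hm := h.pos
  have e : NN P s 1 c Y = ∑ a ∈ Rs m P s c, (UU (4 * m) a Y).card := by
    unfold NN
    rw [← card_biUnion]
    · congr 1
      ext n
      rw [mem_biUnion]
      simp only [UU, Rs, mem_filter, mem_range, mem_Icc, one_mul]
      constructor
      · rintro ⟨h1, h2, h3, h4⟩
        have h5 : n % (4 * m) % 4 = c := by rw [Nat.mod_mod_of_dvd _ (Dvd.intro _ rfl)]; exact h3
        refine ⟨n % (4 * m), ⟨Nat.mod_lt _ (by omega), h5, ?_⟩, h1, h2, rfl⟩
        refine (h.mod hs (by omega) (by omega) ?_).1 h4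
        rw [Nat.mod_mod_of_dvd _ (Dvd.intro_left _ rfl)]
      · rintro ⟨a, ⟨h1, h2, h3⟩, h4, h5, h6⟩
        have h7 : n % 4 = c := by
          rw [← h2, ← h6, Nat.mod_mod_of_dvd _ (Dvd.intro _ rfl)]
        refine ⟨h4, h5, h7, ?_⟩
        refine (h.mod hs (by omega) (by omega) ?_).1 h3
        rw [← h6, Nat.mod_mod_of_dvd _ (Dvd.intro_left _ rfl)]
    · intro a _ b _ hab
      refine disjoint_left.2 fun n h1 h2 => hab ?_
      simp only [UU, mem_filter] at h1 h2
      rw [← h1.2.2, h2.2.2]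
  rw [e]
  push_cast
  rfl

/-- the classes `1` and `3` modulo `4` -/
theorem NN_flip (h : Root m P) {s : ℤ} (hs : s = 1 ∨ s = -1) (Y : ℕ) :
    |(NN P s 1 1 Y : ℝ) - NN P s 1 3 Y| ≤ 4 * m * Real.sqrt Y := by
  have hm := h.pos
  rw [NN_res h hs (Or.inl rfl), NN_res h hs (Or.inr rfl)]
  have e : ∑ a ∈ Rs m P s 3, ((UU (4 * m) a Y).card : ℝ) =
      ∑ a ∈ Rs m P s 1, ((UU (4 * m) (4 * m - a) Y).card : ℝ) := by
    symm
    refine sum_bij (fun a _ => 4 * m - a) ?_ ?_ ?_ ?_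
    · intro a ha
      simp only [Rs, mem_filter, mem_range] at ha ⊢
      refine ⟨by omega, by omega, ?_⟩
      refine (h.sym s hs a (4 * m - a) (by omega) (by omega) ?_).1 ha.2.2
      rw [Nat.add_sub_cancel' (by omega)]
      exact Dvd.intro_left _ rfl
    · intro a ha b hb hab
      simp only [Rs, mem_filter, mem_range] at ha hb
      omega
    · intro b hb
      simp only [Rs, mem_filter, mem_range] at hb
      refine ⟨4 * m - b, ?_, by omega⟩
      simp only [Rs, mem_filter, mem_range]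
      refine ⟨by omega, by omega, ?_⟩
      refine (h.sym s hs b (4 * m - b) (by omega) (by omega) ?_).1 hb.2.2
      rw [Nat.add_sub_cancel' (by omega)]
      exact Dvd.intro_left _ rfl
    · intro a _
      rfl
  rw [e, ← sum_sub_distrib]
  refine (abs_sum_le_sum_abs _ _).trans ?_
  have h1 : ∀ a ∈ Rs m P s 1, |((UU (4 * m) a Y).card : ℝ) - ((UU (4 * m) (4 * m - a) Y).card : ℝ)|
      ≤ Real.sqrt Y := by
    intro a ha
    simp only [Rs, mem_filter, mem_range] at ha
    refine eqd _ _ _ _ (by omega) ha.1 (by omega) ?_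
    have h5 : (4 * m - a).gcd (4 * m) = (4 * m - a).gcd a := by
      conv_lhs => rw [show 4 * m = a + (4 * m - a) by omega]
      rw [Nat.add_sub_cancel_left, Nat.gcd_add_self_right]
    have h6 : a.gcd (4 * m) = a.gcd (4 * m - a) := by
      conv_lhs => rw [show 4 * m = (4 * m - a) + a by omega]
      rw [Nat.gcd_add_self_right]
    rw [h5, h6, Nat.gcd_comm]
  refine (sum_le_sum h1).trans ?_
  rw [sum_const, nsmul_eq_mul]
  refine mul_le_mul_of_nonneg_right ?_ (Real.sqrt_nonneg _)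
  have h2 : (Rs m P s 1).card ≤ 4 * m := by
    unfold Rs
    exact (card_filter_le _ _).trans (by rw [card_range])
  exact_mod_cast h2

/-- exactly one of the two signs -/
theorem NN_half (h : Root m P) (k c Y : ℕ) (hk : 0 < k) :
    NN P 1 k c Y + NN P (-1) k c Y = NN (fun _ => True) 1 k c Y := by
  unfold NN
  rw [← card_union_of_disjoint]
  · congr 1
    ext n
    simp only [mem_union, mem_filter, mem_Icc]
    constructor
    · rintro (⟨h1, h2, h3, -⟩ | ⟨h1, h2, h3, -⟩) <;> exact ⟨h1, h2, h3, trivial⟩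
    · rintro ⟨h1, h2, h3, -⟩
      have h4 := h.one (1 * ((k * n : ℕ) : ℤ)) (by
        rw [one_mul]
        have : 0 < k * n := Nat.mul_pos hk (by omega)
        omega)
      by_cases h5 : P (1 * ((k * n : ℕ) : ℤ))
      · exact Or.inl ⟨h1, h2, h3, h5⟩
      · refine Or.inr ⟨h1, h2, h3, ?_⟩
        by_contra h6
        refine h5 (h4.2 ?_)
        rwa [one_mul, ← neg_one_mul]
  · refine disjoint_left.2 fun n h1 h2 => ?_
    simp only [mem_filter, mem_Icc] at h1 h2
    have h4 := h.one (1 * ((k * n : ℕ) : ℤ)) (by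
      rw [one_mul]
      have : 0 < k * n := Nat.mul_pos hk (by omega)
      omega)
    have h5 := h4.1 h1.2.2.2
    rw [one_mul, ← neg_one_mul] at h5
    exact h5 h2.2.2.2

theorem NN_true (s : ℤ) (k c Y : ℕ) : NN (fun _ => True) s k c Y = NN (fun _ => True) 1 1 c Y := by
  unfold NN
  rfl

/-- half of the squarefree integers have the property -/
theorem NS_half (h : Root m P) (X : ℕ) : 2 * NS P X = NS (fun _ => True) X := by
  rw [NS_eq, NS_eq]
  have h1 := NN_half h 1 1 X one_pos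
  have h2 := NN_half h 1 3 X one_pos
  have h3 := NN_half h 2 1 (X / 2) two_pos
  have h4 := NN_half h 2 3 (X / 2) two_pos
  rw [NN_true (-1) 1 1 X, NN_true (-1) 1 3 X, NN_true (-1) 2 1, NN_true (-1) 2 3, NN_true 1 2 1,
    NN_true 1 2 3]
  rw [NN_true] at h3 h4
  omega

theorem root_true (hm : 0 < m) (hm2 : m % 2 = 1) {s : ℤ} (Y : ℕ) :
    |(NN (fun _ => True) s 1 1 Y : ℝ) - NN (fun _ => True) s 1 3 Y| ≤ 4 * Real.sqrt Y := by
  have e : ∀ c : ℕ, (c = 1 ∨ c = 3) → NN (fun _ => True) s 1 c Y = (UU 4 c Y).card := by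
    intro c hc
    unfold NN UU
    congr 1
    ext n
    simp only [mem_filter]
    tauto
  rw [e 1 (Or.inl rfl), e 3 (Or.inr rfl)]
  refine (eqd 4 1 3 Y (by norm_num) (by norm_num) (by norm_num) (by decide)).trans ?_
  have := Real.sqrt_nonneg (Y : ℝ)
  linarith

/-- nearly half of the fundamental discriminants have the property -/
theorem NF_half (h : Root m P) (X : ℕ) :
    |2 * (NF P X : ℝ) - NF (fun _ => True) X| ≤ (16 * m + 16) * Real.sqrt X := by
  rw [NF_eq, NF_eq]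
  have h1 := NN_half h 1 1 X one_pos
  have h1' := NN_half h 1 3 X one_pos
  have h2 := NN_half h 1 1 (X / 4) one_pos
  have h2' := NN_half h 1 3 (X / 4) one_pos
  have h3 := NN_half h 2 1 (X / 8) two_pos
  have h4 := NN_half h 2 3 (X / 8) two_pos
  rw [NN_true (-1) 1 1, NN_true (-1) 1 3, NN_true (-1) 2 1, NN_true (-1) 2 3, NN_true 1 2 1,
    NN_true 1 2 3]
  rw [NN_true] at h3 h4
  have f1 := NN_flip h (s := 1) (Or.inl rfl) X
  have f2 := NN_flip h (s := -1) (Or.inr rfl) X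
  have f3 := NN_flip h (s := 1) (Or.inl rfl) (X / 4)
  have f4 := NN_flip h (s := -1) (Or.inr rfl) (X / 4)
  have g1 := root_true h.pos h.odd (s := 1) X
  have g2 := root_true h.pos h.odd (s := 1) (X / 4)
  have hs : Real.sqrt ((X / 4 : ℕ) : ℝ) ≤ Real.sqrt X := by
    refine Real.sqrt_le_sqrt ?_
    exact_mod_cast Nat.div_le_self X 4
  have h1r := congrArg (Nat.cast : ℕ → ℝ) h1
  have h1r' := congrArg (Nat.cast : ℕ → ℝ) h1'
  have h2r := congrArg (Nat.cast : ℕ → ℝ) h2
  have h2r' := congrArg (Nat.cast : ℕ → ℝ) h2'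
  have h3r := congrArg (Nat.cast : ℕ → ℝ) h3
  have h4r := congrArg (Nat.cast : ℕ → ℝ) h4
  push_cast at h1r h1r' h2r h2r' h3r h4r ⊢
  have hm0 : (0 : ℝ) ≤ m := Nat.cast_nonneg m
  have k3 : 4 * (m : ℝ) * Real.sqrt ((X / 4 : ℕ) : ℝ) ≤ 4 * m * Real.sqrt X :=
    mul_le_mul_of_nonneg_left hs (by positivity)
  rw [abs_le] at f1 f2 f3 f4 g1 g2 ⊢
  constructor
  · linarith [f1.1, f1.2, f2.1, f2.2, f3.1, f3.2, f4.1, f4.2, g1.1, g1.2, g2.1, g2.2]
  · linarith [f1.1, f1.2, f2.1, f2.2, f3.1, f3.2, f4.1, f4.2, g1.1, g1.2, g2.1, g2.2]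

end Pool.Agent.N919.BS
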