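import Pool.Agent.N919.BS.Sum

/-!
# Fundamental discriminants of both signs
-/

set_option autoImplicit false

open scoped Classical

namespace Pool.Agent.N919.BS

open Finset Filter

theorem core_odd {D : ℤ} (h : D % 4 = 1) : core D = D := by
  unfold core
  rw [if_pos (by omega)]

theorem core_four (m : ℤ) : core (4 * m) = m := by
  unfold core
  rw [if_neg (by omega), Int.mul_ediv_cancel_left _ (by norm_num)]

/-- the type of a fundamental discriminant -/
noncomputable def tyF (d : ℤ) : Fin 8 :=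
  if 0 < d then (if d % 4 = 1 then 0 else if d % 8 = 4 then 1 else if d % 32 = 8 then 2 else 3)
  else (if d % 8 = 4 then 4 else if d % 4 = 1 then 5 else if d % 32 = 24 then 6 else 7)

theorem NF_eq (P : ℤ → Prop) (X : ℕ) : NF P X =
    NN P 1 1 1 X + NN P 1 1 3 (X / 4) + NN P 1 2 1 (X / 8) + NN P 1 2 3 (X / 8) +
    (NN P (-1) 1 1 (X / 4) + NN P (-1) 1 3 X + NN P (-1) 2 1 (X / 8) + NN P (-1) 2 3 (X / 8)) := by
  have h := card_eight ((Icc (-(X : ℤ)) X).filter fun d => Fund d ∧ P (core d))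
    ![IM P 1 1 1 X 1, IM P 1 1 3 (X / 4) 4, IM P 1 2 1 (X / 8) 8, IM P 1 2 3 (X / 8) 8,
      IM P (-1) 1 1 (X / 4) (-4), IM P (-1) 1 3 X (-1), IM P (-1) 2 1 (X / 8) (-8),
      IM P (-1) 2 3 (X / 8) (-8)] ?_ tyF ?_
  · unfold NF
    rw [h, Fin.sum_univ_eight]
    simp only [Fin.isValue, Matrix.cons_val]
    rw [card_IM _ _ _ _ _ (by norm_num), card_IM _ _ _ _ _ (by norm_num),
      card_IM _ _ _ _ _ (by norm_num), card_IM _ _ _ _ _ (by norm_num),
      card_IM _ _ _ _ _ (by norm_num), card_IM _ _ _ _ _ (by norm_num),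
      card_IM _ _ _ _ _ (by norm_num), card_IM _ _ _ _ _ (by norm_num)]
    ring
  · intro d
    rw [mem_filter, mem_Icc]
    constructor
    · rintro ⟨⟨h1, h2⟩, ⟨h3, h5⟩ | ⟨m, rfl, h3, h5⟩, h4⟩
      · rw [core_odd h5] at h4
        obtain ⟨n, hn | hn⟩ := Int.eq_nat_or_neg d
        · subst hn
          rw [sq_cast] at h3
          have hn0 : 0 < n := Nat.pos_of_ne_zero h3.ne_zero
          exact ⟨0, mem_IM.2 ⟨n, ⟨hn0, by omega⟩, ⟨h3, by omega, by simpa using h4⟩, by simp⟩⟩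
        · subst hn
          rw [sq_neg, sq_cast] at h3
          have hn0 : 0 < n := Nat.pos_of_ne_zero h3.ne_zero
          exact ⟨5, mem_IM.2 ⟨n, ⟨hn0, by omega⟩, ⟨h3, by omega, by simpa using h4⟩, by simp⟩⟩
      · rw [core_four] at h4
        obtain ⟨n, hn | hn⟩ := Int.eq_nat_or_neg m
        · subst hn
          rw [sq_cast] at h3
          have hn0 : 0 < n := Nat.pos_of_ne_zero h3.ne_zero
          rcases sq_type h3 with h6 | ⟨M, rfl, h6⟩
          · exact ⟨1, mem_IM.2 ⟨n, ⟨hn0, by omega⟩, ⟨h3, by omega, by simpa using h4⟩, by simp⟩⟩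
          · rw [sq_two h6] at h3
            rcases (show M % 4 = 1 ∨ M % 4 = 3 by omega) with h7 | h7
            · exact ⟨2, mem_IM.2 ⟨M, ⟨by omega, by omega⟩, ⟨h3, h7, by simpa using h4⟩, by
                push_cast; ring⟩⟩
            · exact ⟨3, mem_IM.2 ⟨M, ⟨by omega, by omega⟩, ⟨h3, h7, by simpa using h4⟩, by
                push_cast; ring⟩⟩
        · subst hn
          rw [sq_neg, sq_cast] at h3
          have hn0 : 0 < n := Nat.pos_of_ne_zero h3.ne_zero
          rcases sq_type h3 with h6 | ⟨M, rfl, h6⟩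
          · exact ⟨4, mem_IM.2 ⟨n, ⟨hn0, by omega⟩, ⟨h3, by omega, by simpa using h4⟩, by simp⟩⟩
          · rw [sq_two h6] at h3
            rcases (show M % 4 = 1 ∨ M % 4 = 3 by omega) with h7 | h7
            · exact ⟨6, mem_IM.2 ⟨M, ⟨by omega, by omega⟩, ⟨h3, h7, by simpa using h4⟩, by
                push_cast; ring⟩⟩
            · exact ⟨7, mem_IM.2 ⟨M, ⟨by omega, by omega⟩, ⟨h3, h7, by simpa using h4⟩, by
                push_cast; ring⟩⟩
    · rintro ⟨i, hi⟩
      fin_cases i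
      · obtain ⟨M, h1, ⟨h2, h3, h4⟩, rfl⟩ := mem_IM.1 hi
        refine ⟨⟨by omega, by omega⟩, Or.inl ⟨?_, by omega⟩, ?_⟩
        · rw [one_mul, sq_cast]
          exact h2
        · rw [core_odd (by omega)]
          simpa using h4
      · obtain ⟨M, h1, ⟨h2, h3, h4⟩, rfl⟩ := mem_IM.1 hi
        refine ⟨⟨by omega, by omega⟩, Or.inr ⟨M, rfl, (sq_cast _).2 h2, by omega⟩, ?_⟩
        rw [core_four]
        simpa using h4
      · obtain ⟨M, h1, ⟨h2, h3, h4⟩, rfl⟩ := mem_IM.1 hi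
        have e : (8 : ℤ) * M = 4 * ((2 * M : ℕ) : ℤ) := by push_cast; ring
        refine ⟨⟨by omega, by omega⟩, Or.inr ⟨((2 * M : ℕ) : ℤ), e,
          (sq_cast _).2 ((sq_two (by omega)).2 h2), by omega⟩, ?_⟩
        rw [e, core_four]
        simpa using h4
      · obtain ⟨M, h1, ⟨h2, h3, h4⟩, rfl⟩ := mem_IM.1 hi
        have e : (8 : ℤ) * M = 4 * ((2 * M : ℕ) : ℤ) := by push_cast; ring
        refine ⟨⟨by omega, by omega⟩, Or.inr ⟨((2 * M : ℕ) : ℤ), e,
          (sq_cast _).2 ((sq_two (by omega)).2 h2), by omega⟩, ?_⟩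
        rw [e, core_four]
        simpa using h4
      · obtain ⟨M, h1, ⟨h2, h3, h4⟩, rfl⟩ := mem_IM.1 hi
        have e : (-4 : ℤ) * M = 4 * (-(M : ℤ)) := by ring
        refine ⟨⟨by omega, by omega⟩, Or.inr ⟨-(M : ℤ), e,
          (sq_neg _).2 ((sq_cast _).2 h2), by omega⟩, ?_⟩
        rw [e, core_four]
        simpa using h4
      · obtain ⟨M, h1, ⟨h2, h3, h4⟩, rfl⟩ := mem_IM.1 hi
        refine ⟨⟨by omega, by omega⟩, Or.inl ⟨?_, by omega⟩, ?_⟩
        · rw [neg_one_mul, sq_neg, sq_cast]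
          exact h2
        · rw [core_odd (by omega)]
          simpa using h4
      · obtain ⟨M, h1, ⟨h2, h3, h4⟩, rfl⟩ := mem_IM.1 hi
        have e : (-8 : ℤ) * M = 4 * (-((2 * M : ℕ) : ℤ)) := by push_cast; ring
        refine ⟨⟨by omega, by omega⟩, Or.inr ⟨-((2 * M : ℕ) : ℤ), e,
          (sq_neg _).2 ((sq_cast _).2 ((sq_two (by omega)).2 h2)), by omega⟩, ?_⟩
        rw [e, core_four]
        simpa using h4
      · obtain ⟨M, h1, ⟨h2, h3, h4⟩, rfl⟩ := mem_IM.1 hi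
        have e : (-8 : ℤ) * M = 4 * (-((2 * M : ℕ) : ℤ)) := by push_cast; ring
        refine ⟨⟨by omega, by omega⟩, Or.inr ⟨-((2 * M : ℕ) : ℤ), e,
          (sq_neg _).2 ((sq_cast _).2 ((sq_two (by omega)).2 h2)), by omega⟩, ?_⟩
        rw [e, core_four]
        simpa using h4
  · intro i d hi
    unfold tyF
    fin_cases i <;> obtain ⟨M, h1, ⟨h2, h3, h4⟩, rfl⟩ := mem_IM.1 hi <;>
    · split_ifs <;> first | rfl | (exfalso; omega)

end Pool.Agent.N919.BS
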